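import Pool.Agent.Lib_helper33.NF.NFS

/-!
# A representation whose reduction is a hook representation of the symmetric group and that
contains a rank one nilpotent does not preserve a form up to scalars for which the nilpotent is
skew.
-/

set_option autoImplicit false
set_option linter.unusedSectionVars false

namespace Pool.Agent.NF

open Matrix

section tau

variable {C : Type*} [Field C] (A : ValuationSubring C) {Γ : Type*} [Group Γ] {D : ℕ}

/-- The anti-automorphism of the group ring that maps g to mu(g) times the inverse of g. -/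
noncomputable def nof_hom (μ : Γ →* A) : MonoidAlgebra A Γ →ₐ[A] (MonoidAlgebra A Γ)ᵐᵒᵖ :=
  MonoidAlgebra.lift A _ Γ
    { toFun := fun γ => MulOpposite.op (μ γ • MonoidAlgebra.of A Γ γ⁻¹)
      map_one' := by rw [map_one, one_smul, inv_one, map_one]; rfl
      map_mul' := by
        intro g h
        have h1 : MonoidAlgebra.of A Γ (g * h)⁻¹ =
            MonoidAlgebra.of A Γ h⁻¹ * MonoidAlgebra.of A Γ g⁻¹ := by
          rw [← map_mul, _root_.mul_inv_rev]
        rw [← MulOpposite.op_mul, smul_mul_smul_comm, h1, map_mul, mul_comm (μ g)] }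

noncomputable def nof_tau (μ : Γ →* A) (r : MonoidAlgebra A Γ) : MonoidAlgebra A Γ :=
  (nof_hom A μ r).unop

variable {A} {μ : Γ →* A}

theorem tau_of (γ : Γ) :
    nof_tau A μ (MonoidAlgebra.of A Γ γ) = μ γ • MonoidAlgebra.of A Γ γ⁻¹ := by
  rw [nof_tau, nof_hom, MonoidAlgebra.lift_of]
  rfl

theorem tau_add (x y : MonoidAlgebra A Γ) :
    nof_tau A μ (x + y) = nof_tau A μ x + nof_tau A μ y := by
  rw [nof_tau, map_add]; rfl

theorem tau_sub (x y : MonoidAlgebra A Γ) :
    nof_tau A μ (x - y) = nof_tau A μ x - nof_tau A μ y := by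
  rw [nof_tau, map_sub]; rfl

theorem tau_smul (a : A) (x : MonoidAlgebra A Γ) :
    nof_tau A μ (a • x) = a • nof_tau A μ x := by
  rw [nof_tau, map_smul]; rfl

theorem tau_one : nof_tau A μ 1 = 1 := by
  rw [nof_tau, map_one]; rfl

theorem tau_mul (x y : MonoidAlgebra A Γ) :
    nof_tau A μ (x * y) = nof_tau A μ y * nof_tau A μ x := by
  rw [nof_tau, map_mul]; rfl

theorem tau_tau (x : MonoidAlgebra A Γ) : nof_tau A μ (nof_tau A μ x) = x := by
  induction x using MonoidAlgebra.induction_on with
  | of g =>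
    rw [tau_of, tau_smul, tau_of, smul_smul, ← map_mul, mul_inv_cancel, map_one, one_smul, inv_inv]
  | add x y hx hy => rw [tau_add, tau_add, hx, hy]
  | smul a x hx => rw [tau_smul, tau_smul, hx]

/-- products of lists -/
theorem tau_prod (l : List (MonoidAlgebra A Γ)) :
    nof_tau A μ l.prod = (l.map (nof_tau A μ)).reverse.prod := by
  induction l with
  | nil => rw [List.prod_nil, tau_one]; rfl
  | cons a l ih =>
    rw [List.prod_cons, tau_mul, ih, List.map_cons, List.reverse_cons, List.prod_append,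
      List.prod_singleton]

variable {ρ : Γ →* Matrix (Fin D) (Fin D) C}
  {ρ' : Γ →* Matrix (Fin D) (Fin D) (IsLocalRing.ResidueField A)}

theorem phi_tau {J J' : Matrix (Fin D) (Fin D) C}
    (hJρ : ∀ γ, J' * (ρ γ)ᵀ * J = (μ γ : C) • ρ γ⁻¹) (r : MonoidAlgebra A Γ) :
    nfl_phi A ρ (nof_tau A μ r) = J' * (nfl_phi A ρ r)ᵀ * J := by
  induction r using MonoidAlgebra.induction_on with
  | of g => rw [tau_of, map_smul, nfl_phi_of, nfl_phi_of, nfl_smulMC, hJρ]
  | add x y hx hy => rw [tau_add, map_add, map_add, hx, hy, transpose_add, mul_add, add_mul]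
  | smul a x hx =>
    rw [tau_smul, map_smul, map_smul, hx, nfl_smulMC, nfl_smulMC, transpose_smul, mul_smul_comm,
      smul_mul_assoc]

section main

variable (hspan : Submodule.span (IsLocalRing.ResidueField A) (Set.range ρ') = ⊤)
  (htr : ∀ γ, ∃ t : A, (t : C) = (ρ γ).trace ∧ IsLocalRing.residue A t = (ρ' γ).trace)
  {J J' : Matrix (Fin D) (Fin D) C} (hJ : J * J' = 1)
  (hJρ : ∀ γ, J' * (ρ γ)ᵀ * J = (μ γ : C) • ρ γ⁻¹)

include hspan htr hJ hJρ

theorem psi_tau_tr (r : MonoidAlgebra A Γ) :
    (nfl_psi A ρ' (nof_tau A μ r)).trace = (nfl_psi A ρ' r).trace := by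
  obtain ⟨t, h1, h2⟩ := nfl_trace A htr (nof_tau A μ r)
  obtain ⟨t', h3, h4⟩ := nfl_trace A htr r
  rw [phi_tau hJρ, Matrix.trace_mul_comm, ← mul_assoc, hJ, one_mul, Matrix.trace_transpose,
    ← h3] at h1
  rw [← h2, ← h4, Subtype.ext h1]

theorem psi_tau_zero {r : MonoidAlgebra A Γ} (hr : nfl_psi A ρ' r = 0) :
    nfl_psi A ρ' (nof_tau A μ r) = 0 := by
  refine Matrix.ext_iff_trace_mul_right.2 fun M => ?_
  obtain ⟨r', rfl⟩ := nfl_surj A hspan M
  rw [← map_mul]
  have h1 : nof_tau A μ r * r' = nof_tau A μ (nof_tau A μ r' * r) := by rw [tau_mul, tau_tau]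
  rw [h1, psi_tau_tr hspan htr hJ hJρ, map_mul, hr, mul_zero, zero_mul]

/-- Core: a skew and a symmetric element of rank one cannot coexist. -/
theorem nof_core (h2 : (2 : IsLocalRing.ResidueField A) ≠ 0) (x y : MonoidAlgebra A Γ)
    {v f u w : Fin D → IsLocalRing.ResidueField A} (hv : v ≠ 0) (hf : f ≠ 0) (huw : u ⬝ᵥ w ≠ 0)
    (hx : nfl_psi A ρ' x = vecMulVec v f) (hx' : nfl_psi A ρ' (nof_tau A μ x) = - vecMulVec v f)
    (hy : nfl_psi A ρ' y = vecMulVec u w) (hy' : nfl_psi A ρ' (nof_tau A μ y) = vecMulVec u w) :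
    False := by
  classical
  have sand : ∀ (a b c d : Fin D → IsLocalRing.ResidueField A)
      (M : Matrix (Fin D) (Fin D) (IsLocalRing.ResidueField A)),
      vecMulVec a b * M * vecMulVec c d = (b ⬝ᵥ M.mulVec c) • vecMulVec a d := by
    intro a b c d M
    rw [mul_assoc, Matrix.mul_vecMulVec, Matrix.vecMulVec_mul_vecMulVec]
    ext i j
    simp [vecMulVec_apply]
    try ring
  have hu0 : u ≠ 0 := by rintro rfl; exact huw (zero_dotProduct _)
  have hw0 : w ≠ 0 := by rintro rfl; exact huw (dotProduct_zero _)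
  obtain ⟨i, hi⟩ := Function.ne_iff.1 hf
  obtain ⟨j, hj⟩ := Function.ne_iff.1 hu0
  rw [Pi.zero_apply] at hi hj
  obtain ⟨m, hm⟩ := nfl_surj A hspan
    (Matrix.single i j ((f i)⁻¹ * (u j)⁻¹) : Matrix (Fin D) (Fin D) (IsLocalRing.ResidueField A))
  have hfm : f ⬝ᵥ (nfl_psi A ρ' m).mulVec u = 1 := by
    have h3 : (nfl_psi A ρ' m).mulVec u = Pi.single i ((f i)⁻¹ * (u j)⁻¹ * u j) := by
      rw [hm]
      ext k
      simp [Matrix.single_mulVec, Function.update_apply, Pi.single_apply]
    rw [h3, dotProduct_single, mul_assoc (f i)⁻¹, inv_mul_cancel₀ hj, mul_one, mul_inv_cancel₀ hi]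
  obtain ⟨z, hz⟩ : ∃ z, z = x * m * y := ⟨_, rfl⟩
  have h3 : nfl_psi A ρ' z = vecMulVec v w := by
    rw [hz, map_mul, map_mul, hx, hy, sand, hfm, one_smul]
  obtain ⟨α, hα⟩ : ∃ α : IsLocalRing.ResidueField A,
      nfl_psi A ρ' (nof_tau A μ z) = α • vecMulVec u f := by
    refine ⟨-(w ⬝ᵥ (nfl_psi A ρ' (nof_tau A μ m)).mulVec v), ?_⟩
    rw [hz, tau_mul, tau_mul, map_mul, map_mul, hx', hy', ← mul_assoc, mul_neg, sand, neg_smul]
  obtain ⟨a, ha⟩ := IsLocalRing.residue_surjective (α * (w ⬝ᵥ u))
  have h4 : nfl_psi A ρ' (z * nof_tau A μ z) = (α * (w ⬝ᵥ u)) • vecMulVec v f := by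
    rw [map_mul, h3, hα, mul_smul_comm, Matrix.vecMulVec_mul_vecMulVec]
    ext k l
    simp [vecMulVec_apply]
    try ring
  have h5 := psi_tau_zero hspan htr hJ hJρ (r := z * nof_tau A μ z - a • x) (by
    rw [map_sub, map_smul, h4, nfl_smulMK, ha, hx, sub_self])
  rw [tau_sub, tau_mul, tau_tau, tau_smul, map_sub, map_smul, h4, nfl_smulMK, ha, hx', smul_neg,
    sub_neg_eq_add, ← add_smul] at h5
  have hvf : vecMulVec v f ≠ 0 := by
    intro h
    obtain ⟨k, hk⟩ := Function.ne_iff.1 hv
    exact mul_ne_zero hk hi (congrFun (congrFun h k) i)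
  have h6 : α = 0 := by
    have h7 := (smul_eq_zero.1 h5).resolve_right hvf
    rw [← two_mul] at h7
    have h8 := (mul_eq_zero.1 h7).resolve_left h2
    rw [dotProduct_comm] at h8
    exact (mul_eq_zero.1 h8).resolve_right huw
  rw [h6, zero_smul] at hα
  have h7 := psi_tau_zero hspan htr hJ hJρ hα
  rw [tau_tau, h3] at h7
  obtain ⟨k, hk⟩ := Function.ne_iff.1 hv
  obtain ⟨l, hl⟩ := Function.ne_iff.1 hw0
  exact mul_ne_zero hk hl (congrFun (congrFun h7 k) l)

/-- The multiplier is trivial modulo the maximal ideal on the kernel of the reduction. -/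
theorem mu_ker (hD : 0 < D) {g : Γ} (hg : ρ' g = 1) : IsLocalRing.residue A (μ g) = 1 := by
  have : Nonempty (Fin D) := ⟨⟨0, hD⟩⟩
  have h1 := psi_tau_zero hspan htr hJ hJρ (r := MonoidAlgebra.of A Γ g - 1) (by
    rw [map_sub, map_one, nfl_psi_of, hg, sub_self])
  have hg' : ρ' g⁻¹ = 1 := by
    have h2 : ρ' g * ρ' g⁻¹ = 1 := by rw [← map_mul, mul_inv_cancel, map_one]
    rwa [hg, one_mul] at h2
  rw [tau_sub, tau_one, tau_of, map_sub, map_smul, map_one, nfl_psi_of, hg', nfl_smulMK] at h1
  have h2 := congrFun (congrFun h1 ⟨0, hD⟩) ⟨0, hD⟩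
  simp only [Matrix.sub_apply, Matrix.smul_apply, Matrix.one_apply_eq, Matrix.zero_apply,
    smul_eq_mul, mul_one] at h2
  exact sub_eq_zero.1 h2

end main

end tau

/-! ### Disjoint pairs -/

/-- The pairs of the list are pairwise disjoint and consist of distinct points. -/
def DJ {n : ℕ} (l : List (Fin n × Fin n)) : Prop := (l.map Prod.fst ++ l.map Prod.snd).Nodup

theorem DJ.sub {n : ℕ} {l l' : List (Fin n × Fin n)} (h : DJ l) (hl : l'.Sublist l) : DJ l' :=
  List.Nodup.sublist ((hl.map _).append (hl.map _)) h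

theorem DJ.perm {n : ℕ} {l l' : List (Fin n × Fin n)} (h : DJ l) (hl : l.Perm l') : DJ l' :=
  (((hl.map _).append (hl.map _)).nodup_iff).1 h

theorem DJ.cons {n : ℕ} {l : List (Fin n × Fin n)} (h : DJ l) {a b : Fin n} (hab : a ≠ b)
    (ha : a ∉ l.map Prod.fst ++ l.map Prod.snd) (hb : b ∉ l.map Prod.fst ++ l.map Prod.snd) :
    DJ ((a, b) :: l) := by
  unfold DJ
  rw [List.map_cons, List.map_cons]
  have h1 : (((a, b) : Fin n × Fin n).1 :: l.map Prod.fst ++
      ((a, b) : Fin n × Fin n).2 :: l.map Prod.snd).Perm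
      (a :: b :: (l.map Prod.fst ++ l.map Prod.snd)) := by
    rw [List.cons_append]
    exact List.Perm.cons _ List.perm_middle
  rw [h1.nodup_iff, List.nodup_cons, List.nodup_cons]
  refine ⟨?_, hb, h⟩
  rw [List.mem_cons]
  push Not
  exact ⟨hab, ha⟩

theorem DJ.inj {n : ℕ} {l : List (Fin n × Fin n)} (h : DJ l) :
    Function.Injective (Sum.elim (fun i : Fin l.length => (l.get i).1)
      (fun i : Fin l.length => (l.get i).2)) := by
  unfold DJ at h
  rw [List.nodup_append] at h
  obtain ⟨h1, h2, h3⟩ := h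
  have e1 : ∀ i j : Fin l.length, (l.get i).1 = (l.get j).1 → i = j := by
    intro i j hij
    have hi : (i : ℕ) < (l.map Prod.fst).length := by rw [List.length_map]; exact i.2
    have hj : (j : ℕ) < (l.map Prod.fst).length := by rw [List.length_map]; exact j.2
    have := (List.Nodup.getElem_inj_iff h1 (hi := hi) (hj := hj)).1 (by
      rw [List.getElem_map, List.getElem_map]; exact hij)
    exact Fin.ext this
  have e2 : ∀ i j : Fin l.length, (l.get i).2 = (l.get j).2 → i = j := by
    intro i j hij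
    have hi : (i : ℕ) < (l.map Prod.snd).length := by rw [List.length_map]; exact i.2
    have hj : (j : ℕ) < (l.map Prod.snd).length := by rw [List.length_map]; exact j.2
    have := (List.Nodup.getElem_inj_iff h2 (hi := hi) (hj := hj)).1 (by
      rw [List.getElem_map, List.getElem_map]; exact hij)
    exact Fin.ext this
  have m1 : ∀ i : Fin l.length, (l.get i).1 ∈ l.map Prod.fst := fun i =>
    List.mem_map_of_mem (List.get_mem l i)
  have m2 : ∀ i : Fin l.length, (l.get i).2 ∈ l.map Prod.snd := fun i =>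
    List.mem_map_of_mem (List.get_mem l i)
  rintro (i | i) (j | j) hij
  · exact congrArg Sum.inl (e1 i j hij)
  · exact absurd hij (h3 _ (m1 i) _ (m2 j))
  · exact absurd hij.symm (h3 _ (m1 j) _ (m2 i))
  · exact congrArg Sum.inr (e2 i j hij)

section hook

variable {k : Type*} [Field k] {n D N : ℕ} (r : Equiv.Perm (Fin n) →* Matrix (Fin D) (Fin D) k)

/-- 1 minus a transposition. -/
def UU (c : Fin n × Fin n) : Matrix (Fin D) (Fin D) k := 1 - r (Equiv.swap c.1 c.2)

/-- 1 plus a transposition. -/
def WW (c : Fin n × Fin n) : Matrix (Fin D) (Fin D) k := 1 + r (Equiv.swap c.1 c.2)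

variable {r}

theorem prod_UU (l : List (Fin n × Fin n)) : (l.map (UU r)).prod =
    ee r (fun i : Fin l.length => (l.get i).1) (fun i : Fin l.length => (l.get i).2) := by
  unfold ee
  congr 1
  conv_lhs => rw [← List.ofFn_get l, List.map_ofFn]
  rfl

theorem kill_U (H : Hook N r) {l : List (Fin n × Fin n)} (hl : N + 1 ≤ l.length) (h : DJ l) :
    (l.map (UU r)).prod = 0 := by
  have h1 : l = l.take (N + 1) ++ l.drop (N + 1) := (List.take_append_drop _ _).symm
  rw [h1, List.map_append, List.prod_append]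
  have h2 : ((l.take (N + 1)).map (UU r)).prod = 0 := by
    have h3 := prod_UU (r := r) (l.take (N + 1))
    have h4 : (l.take (N + 1)).length = N + 1 := by rw [List.length_take]; omega
    have h5 := (h.sub (List.take_sublist (N + 1) l)).inj
    rw [h3]
    generalize l.take (N + 1) = l' at h4 h5
    revert h5
    generalize (fun i : Fin l'.length => (l'.get i).1) = a
    generalize (fun i : Fin l'.length => (l'.get i).2) = b
    revert a b
    rw [h4]
    intro a b hab
    exact H.kill a b hab
  rw [h2, zero_mul]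

/-- If the products of N + 1 of the 1 + t vanish as well, the representation is zero. -/
theorem no_both (H : Hook N r) (hW : ∀ l : List (Fin n × Fin n), N + 1 ≤ l.length → DJ l →
    (l.map (WW r)).prod = 0) : D = 0 := by
  have key : ∀ m : ℕ, ∀ l l' : List (Fin n × Fin n), l.length + l'.length + m = 2 * N + 1 →
      DJ (l ++ l') → (l.map (UU r)).prod * (l'.map (WW r)).prod = 0 := by
    intro m
    induction m with
    | zero =>
      intro l l' hm hd
      by_cases h : N + 1 ≤ l.length
      · rw [kill_U H h (hd.sub (List.sublist_append_left _ _)), zero_mul]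
      · rw [hW l' (by omega) (hd.sub (List.sublist_append_right _ _)), mul_zero]
    | succ m ih =>
      intro l l' hm hd
      -- two new points
      obtain ⟨s, hs⟩ : ∃ s : Finset (Fin n), s =
          ((l ++ l').map Prod.fst ++ (l ++ l').map Prod.snd).toFinset := ⟨_, rfl⟩
      have hcard : s.card + 2 ≤ n := by
        have h1 : s.card ≤ ((l ++ l').map Prod.fst ++ (l ++ l').map Prod.snd).length := by
          rw [hs]; exact List.toFinset_card_le _
        rw [List.length_append, List.length_map, List.length_map, List.length_append] at h1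
        have := H.size
        omega
      obtain ⟨a, ha⟩ : ∃ a, a ∉ s := by
        by_contra hne
        push Not at hne
        have : s = Finset.univ := Finset.eq_univ_iff_forall.2 hne
        rw [this, Finset.card_univ, Fintype.card_fin] at hcard
        omega
      obtain ⟨b, hb⟩ : ∃ b, b ∉ insert a s := by
        by_contra hne
        push Not at hne
        have : insert a s = Finset.univ := Finset.eq_univ_iff_forall.2 hne
        have h2 := Finset.card_insert_le a s
        rw [this, Finset.card_univ, Fintype.card_fin] at h2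
        omega
      rw [Finset.mem_insert] at hb
      push Not at hb
      have hd' : DJ ((a, b) :: (l ++ l')) := by
        refine hd.cons (fun h => hb.1 h.symm) ?_ ?_
        · intro h; apply ha; rw [hs, List.mem_toFinset]; exact h
        · intro h; apply hb.2; rw [hs, List.mem_toFinset]; exact h
      have h1 := ih (l ++ [(a, b)]) l' (by
        rw [List.length_append, List.length_singleton]; omega) (hd'.perm (by
        rw [List.append_assoc]
        exact (List.perm_middle (l₁ := l) (l₂ := l') (a := (a, b))).symm))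
      have h2 := ih l ((a, b) :: l') (by rw [List.length_cons]; omega) (hd'.perm
        (List.perm_middle (l₁ := l) (l₂ := l') (a := (a, b))).symm)
      rw [List.map_append, List.prod_append, List.map_singleton, List.prod_singleton] at h1
      rw [List.map_cons, List.prod_cons, ← mul_assoc] at h2
      have h3 : UU r (a, b) + WW r (a, b) = (2 : k) • 1 := by
        unfold UU WW
        rw [two_smul]; abel
      have h4 : (2 : k) • ((l.map (UU r)).prod * (l'.map (WW r)).prod) = 0 := by
        have h5 : (l.map (UU r)).prod * (UU r (a, b) + WW r (a, b)) * (l'.map (WW r)).prod = 0 := by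
          rw [mul_add, add_mul, h1, h2, add_zero]
        rw [h3, mul_smul_comm, mul_one, smul_mul_assoc] at h5
        exact h5
      exact (smul_eq_zero.1 h4).resolve_left H.two
  have h1 := key (2 * N + 1) [] [] (by simp) (by unfold DJ; simp)
  simp only [List.map_nil, List.prod_nil, mul_one] at h1
  by_contra hD
  have hD' : 0 < D := Nat.pos_of_ne_zero hD
  have h2 := congrFun (congrFun h1 ⟨0, hD'⟩) ⟨0, hD'⟩
  rw [Matrix.one_apply_eq, Matrix.zero_apply] at h2
  exact one_ne_zero h2

end hook

/-- **No invariant form up to scalars.** -/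
theorem no_form {C : Type*} [Field C] (A : ValuationSubring C) {Γ : Type*} [Group Γ] {D n N : ℕ}
    (ρ : Γ →* Matrix (Fin D) (Fin D) C)
    (r : Equiv.Perm (Fin n) →* Matrix (Fin D) (Fin D) (IsLocalRing.ResidueField A))
    (H : Hook N r) (π : Γ →* Equiv.Perm (Fin n)) (hπ : Function.Surjective π)
    (htr : ∀ γ, ∃ t : A, (t : C) = (ρ γ).trace ∧
      IsLocalRing.residue A t = ((r.comp π) γ).trace)
    {J J' : Matrix (Fin D) (Fin D) C} (hJ : J * J' = 1) (μ : Γ →* C) (hμ : ∀ γ, μ γ ∈ A)
    (hJρ : ∀ γ, J' * (ρ γ)ᵀ * J = μ γ • ρ γ⁻¹) {v f : Fin D → C} (hv : v ≠ 0) (hf : f ≠ 0)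
    (hn : J' * (vecMulVec v f)ᵀ * J = - vecMulVec v f) : False := by
  classical
  set ρ' := r.comp π with hρ'
  have hspan : Submodule.span (IsLocalRing.ResidueField A) (Set.range ρ') = ⊤ := by
    have h3 : Set.range ρ' = Set.range r := by
      ext x
      constructor
      · rintro ⟨g, rfl⟩
        exact ⟨π g, rfl⟩
      · rintro ⟨g, rfl⟩
        obtain ⟨γ, rfl⟩ := hπ g
        exact ⟨γ, rfl⟩
    rw [h3]
    exact H.span
  obtain ⟨m, hm⟩ : ∃ m : Γ →* A, ∀ γ, (m γ : C) = μ γ :=
    ⟨{ toFun := fun γ => ⟨μ γ, hμ γ⟩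
       map_one' := Subtype.ext (map_one μ)
       map_mul' := fun g h => Subtype.ext (map_mul μ g h) }, fun γ => rfl⟩
  have hJm : ∀ γ, J' * (ρ γ)ᵀ * J = (m γ : C) • ρ γ⁻¹ := fun γ => by rw [hm, hJρ]
  have hD : 0 < D := by
    obtain ⟨i, -⟩ := Function.ne_iff.1 hv
    exact i.pos
  -- the skew element of rank one
  have hvf : vecMulVec v f ≠ 0 := by
    intro h
    obtain ⟨i, hi⟩ := Function.ne_iff.1 hv
    obtain ⟨j, hj⟩ := Function.ne_iff.1 hf
    exact mul_ne_zero hi hj (congrFun (congrFun h i) j)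
  obtain ⟨c, x, hc, hx1, hx2⟩ := nfs_scale A hspan htr _ hvf
  have hx3 : nfl_psi A ρ' (nof_tau A m x) = - nfl_psi A ρ' x := by
    have h1 : nfl_phi A ρ (nof_tau A m x + x) = 0 := by
      rw [map_add, phi_tau hJm, hx1, transpose_smul, mul_smul_comm, smul_mul_assoc, hn, smul_neg,
        neg_add_cancel]
    have h2 := nfl_ker A hspan htr h1
    rw [map_add] at h2
    exact eq_neg_of_add_eq_zero_left h2
  have hrank : ∀ y, ∃ c' : IsLocalRing.ResidueField A,
      nfl_psi A ρ' x * y * nfl_psi A ρ' x = c' • nfl_psi A ρ' x := by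
    intro y
    obtain ⟨q, rfl⟩ := nfl_surj A hspan y
    obtain ⟨t, ht, -⟩ := nfl_trace A htr (q * x)
    refine ⟨IsLocalRing.residue A t, ?_⟩
    have h1 : nfl_phi A ρ (x * q * x - t • x) = 0 := by
      rw [map_sub, map_smul, nfl_smulMC, ht, map_mul, map_mul, map_mul, hx1, sub_eq_zero]
      generalize nfl_phi A ρ q = M
      rw [smul_mul_assoc, smul_mul_assoc, mul_smul_comm, mul_smul_comm, trace_smul, smul_smul,
        smul_smul, smul_eq_mul]
      have h2 : vecMulVec v f * M * vecMulVec v f = (M * vecMulVec v f).trace • vecMulVec v f := by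
        rw [mul_assoc, Matrix.mul_vecMulVec, Matrix.vecMulVec_mul_vecMulVec,
          Matrix.trace_vecMulVec, dotProduct_comm]
        ext i j
        simp [vecMulVec_apply]
        try ring
      rw [h2, smul_smul]
      congr 1
      ring
    have h2 := nfl_ker A hspan htr h1
    rw [map_sub, map_smul, nfl_smulMK, map_mul, map_mul, sub_eq_zero] at h2
    exact h2
  obtain ⟨v', f', hv', hf', hE⟩ := nfl_rank_one _ hx2 hrank
  -- the multiplier on transpositions
  have hker : ∀ g, π g = 1 → IsLocalRing.residue A (m g) = 1 := by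
    intro g hg
    refine mu_ker hspan htr hJ hJm hD ?_
    rw [hρ', MonoidHom.comp_apply, hg, map_one]
  have hmul : ∀ g h, IsLocalRing.residue A (m (g * h)) =
      IsLocalRing.residue A (m g) * IsLocalRing.residue A (m h) := by
    intro g h; rw [map_mul, map_mul]
  have hpi : ∀ g h, π g = π h → IsLocalRing.residue A (m g) = IsLocalRing.residue A (m h) := by
    intro g h hgh
    have h1 := hker (g * h⁻¹) (by rw [map_mul, map_inv, hgh, mul_inv_cancel])
    have h2 := hmul (g * h⁻¹) h
    rw [inv_mul_cancel_right, h1, one_mul] at h2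
    exact h2
  have hconj : ∀ g h (a b c d : Fin n), a ≠ b → c ≠ d → π g = Equiv.swap a b →
      π h = Equiv.swap c d → IsLocalRing.residue A (m g) = IsLocalRing.residue A (m h) := by
    intro g h a b c d hab hcd hg hh
    obtain ⟨σ, hσ⟩ := (isConj_iff.1 (Equiv.Perm.isConj_swap hab hcd))
    obtain ⟨q, rfl⟩ := hπ σ
    have h1 := hpi (q * g * q⁻¹) h (by rw [map_mul, map_mul, map_inv, hg, hσ, hh])
    rw [← h1, hmul, hmul, mul_comm, ← mul_assoc, ← hmul, inv_mul_cancel, map_one, map_one, one_mul]
  obtain ⟨L, hL⟩ : ∃ L : Equiv.Perm (Fin n) → Γ, ∀ σ, π (L σ) = σ :=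
    ⟨Function.surjInv hπ, Function.surjInv_eq hπ⟩
  have hn2 := H.size
  have hN := H.pos
  let i0 : Fin n := ⟨0, by omega⟩
  let i1 : Fin n := ⟨1, by omega⟩
  have hi01 : i0 ≠ i1 := by
    intro h
    have h01 : (0 : ℕ) = 1 := congrArg Fin.val h
    exact absurd h01 zero_ne_one
  obtain ⟨ε, hε⟩ : ∃ ε, ε = IsLocalRing.residue A (m (L (Equiv.swap i0 i1))) := ⟨_, rfl⟩
  have hε1 : ∀ a b : Fin n, a ≠ b → IsLocalRing.residue A (m (L (Equiv.swap a b))) = ε := by
    intro a b hab
    rw [hε]
    exact hconj _ _ a b i0 i1 hab hi01 (hL _) (hL _)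
  have hε2 : ε = 1 ∨ ε = -1 := by
    have h1 : ε * ε = 1 := by
      rw [hε, ← hmul]
      apply hker
      rw [map_mul, hL, Equiv.swap_mul_self]
    exact mul_self_eq_one_iff.1 h1
  -- lifts of the 1 - t
  let Y : Fin n × Fin n → MonoidAlgebra A Γ := fun c => 1 - MonoidAlgebra.of A Γ (L (Equiv.swap c.1 c.2))
  have hY : ∀ c, nfl_psi A ρ' (Y c) = UU r c := by
    intro c
    show nfl_psi A ρ' (1 - MonoidAlgebra.of A Γ (L (Equiv.swap c.1 c.2))) = _
    rw [map_sub, map_one, nfl_psi_of, hρ', MonoidHom.comp_apply, hL]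
    rfl
  have hYt : ∀ c : Fin n × Fin n, c.1 ≠ c.2 →
      nfl_psi A ρ' (nof_tau A m (Y c)) = 1 - ε • r (Equiv.swap c.1 c.2) := by
    intro c hc
    show nfl_psi A ρ' (nof_tau A m (1 - MonoidAlgebra.of A Γ (L (Equiv.swap c.1 c.2)))) = _
    rw [tau_sub, tau_one, tau_of, map_sub, map_one, map_smul, nfl_psi_of, nfl_smulMK, hε1 _ _ hc,
      hρ', MonoidHom.comp_apply, map_inv, hL, Equiv.swap_inv]
  have hYp : ∀ l : List (Fin n × Fin n), nfl_psi A ρ' (l.map Y).prod = (l.map (UU r)).prod := by
    intro l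
    rw [map_list_prod, List.map_map]
    congr 2
    funext c
    exact hY c
  have hDJne : ∀ l : List (Fin n × Fin n), DJ l → ∀ c ∈ l, c.1 ≠ c.2 := by
    intro l hl c hc h
    have h1 := hl
    unfold DJ at h1
    rw [List.nodup_append] at h1
    exact h1.2.2 _ (List.mem_map_of_mem hc) _ (List.mem_map_of_mem hc) h
  have hYtp : ∀ l : List (Fin n × Fin n), DJ l →
      nfl_psi A ρ' (nof_tau A m (l.map Y).prod) =
        (l.map (fun c => 1 - ε • r (Equiv.swap c.1 c.2))).reverse.prod := by
    intro l hl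
    rw [tau_prod, map_list_prod, List.map_reverse, List.map_map, List.map_map]
    congr 2
    apply List.map_congr_left
    intro c hc
    exact hYt c (hDJne l hl c hc)
  rcases hε2 with he | he
  · -- trivial multiplier
    -- disjoint pairs
    let a : Fin N → Fin n := fun i => ⟨i, by omega⟩
    let b : Fin N → Fin n := fun i => ⟨N + i, by omega⟩
    have hab : Function.Injective (Sum.elim a b) := by
      rintro (i | i) (j | j) hij
      · have := congrArg Fin.val hij
        exact congrArg Sum.inl (Fin.ext this)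
      · exfalso
        have : (i : ℕ) = N + j := congrArg Fin.val hij
        omega
      · exfalso
        have : N + (i : ℕ) = j := congrArg Fin.val hij
        omega
      · have : N + (i : ℕ) = N + j := congrArg Fin.val hij
        exact congrArg Sum.inr (Fin.ext (by omega))
    obtain ⟨u, w, huw, huw0⟩ := H.one a b hab
    obtain ⟨l, hl⟩ : ∃ l : List (Fin n × Fin n), l = List.ofFn fun i => (a i, b i) := ⟨_, rfl⟩
    have hlp : (l.map (UU r)).prod = vecMulVec u w := by
      rw [← huw, hl, List.map_ofFn]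
      rfl
    have hdj : DJ l := by
      unfold DJ
      rw [hl, List.map_ofFn, List.map_ofFn, List.nodup_append]
      refine ⟨List.nodup_ofFn.2 ?_, List.nodup_ofFn.2 ?_, ?_⟩
      · intro i j hij
        exact Sum.inl_injective (hab (a₁ := Sum.inl i) (a₂ := Sum.inl j) hij)
      · intro i j hij
        exact Sum.inr_injective (hab (a₁ := Sum.inr i) (a₂ := Sum.inr j) hij)
      · intro c hc d hd hcd
        rw [List.mem_ofFn] at hc hd
        obtain ⟨i, rfl⟩ := hc
        obtain ⟨j, rfl⟩ := hd
        exact Sum.inl_ne_inr (hab (a₁ := Sum.inl i) (a₂ := Sum.inr j) hcd)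
    have hlt : nfl_psi A ρ' (nof_tau A m (l.map Y).prod) = vecMulVec u w := by
      rw [hYtp l hdj, ← hlp]
      have h1 : (fun c : Fin n × Fin n => 1 - ε • r (Equiv.swap c.1 c.2)) = UU r := by
        funext c
        rw [he, one_smul]
        rfl
      rw [h1]
      refine List.Perm.prod_eq' (List.reverse_perm _) ?_
      rw [List.pairwise_reverse, hl, List.map_ofFn, List.pairwise_ofFn]
      intro i j hij
      show UU r (a j, b j) * UU r (a i, b i) = UU r (a i, b i) * UU r (a j, b j)
      have hc : Commute (r (Equiv.swap (a j) (b j))) (r (Equiv.swap (a i) (b i))) := by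
        apply Commute.map
        apply Equiv.Perm.Disjoint.commute
        rw [Equiv.Perm.disjoint_iff_disjoint_support, Equiv.Perm.support_swap, Equiv.Perm.support_swap]
        · have e1 : a j ≠ a i := fun h => by
            have := Sum.inl_injective (hab (a₁ := Sum.inl j) (a₂ := Sum.inl i) h)
            omega
          have e2 : a j ≠ b i := fun h =>
            Sum.inl_ne_inr (hab (a₁ := Sum.inl j) (a₂ := Sum.inr i) h)
          have e3 : b j ≠ a i := fun h =>
            Sum.inr_ne_inl (hab (a₁ := Sum.inr j) (a₂ := Sum.inl i) h)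
          have e4 : b j ≠ b i := fun h => by
            have := Sum.inr_injective (hab (a₁ := Sum.inr j) (a₂ := Sum.inr i) h)
            omega
          rw [Finset.disjoint_left]
          intro t ht
          rw [Finset.mem_insert, Finset.mem_singleton] at ht ⊢
          rcases ht with rfl | rfl
          · push Not; exact ⟨e1, e2⟩
          · push Not; exact ⟨e3, e4⟩
        · exact fun h => Sum.inl_ne_inr (hab (a₁ := Sum.inl i) (a₂ := Sum.inr i) h)
        · exact fun h => Sum.inl_ne_inr (hab (a₁ := Sum.inl j) (a₂ := Sum.inr j) h)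
      exact ((Commute.one_right _).sub_right ((Commute.one_left _).sub_left hc)).eq
    exact nof_core hspan htr hJ hJm H.two x (l.map Y).prod hv' hf' huw0 hE (by rw [hx3, hE])
      (by rw [hYp, hlp]) hlt
  · -- sign
    have hW : ∀ l : List (Fin n × Fin n), N + 1 ≤ l.length → DJ l →
        (l.map (WW r)).prod = 0 := by
      intro l hl hd
      have hdr : DJ l.reverse := hd.perm (List.reverse_perm l).symm
      have h1 := psi_tau_zero hspan htr hJ hJm (r := (l.reverse.map Y).prod) (by
        rw [hYp]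
        exact kill_U H (by rw [List.length_reverse]; exact hl) hdr)
      rw [hYtp _ hdr, List.map_reverse, List.reverse_reverse] at h1
      rw [← h1]
      congr 2
      funext c
      rw [he, neg_smul, one_smul, sub_neg_eq_add]
      rfl
    have := no_both H hW
    omega

end Pool.Agent.NF
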