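import Pool.Agent.Lib_helper29.NF.NormBig
import Pool.Agent.Lib_helper48.TD.D7
import Pool.Agent.Lib_helper48.NF.NoForm

/-!
# Norm forms, all powers: transvections
-/

set_option autoImplicit false
set_option linter.unusedSectionVars false

namespace Pool.Agent.NF

open Filter Topology Matrix Pool.Agent.TBL

section

variable {k : Type*} [NontriviallyNormedField k] [IsUltrametricDist k] [CompleteSpace k]
  {κ : Type*} {D : κ → ℕ} {G : Type*} [Group G]

attribute [local instance] matRing matAlg matUltra matComplete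

/-- The logarithm of a unipotent element of level two. -/
theorem lg_unip [CharZero k] {n : Type*} [Fintype n] [DecidableEq n] {p : ℕ} (hp0 : (p : k) ≠ 0)
    (hp : ‖(p : k)‖ < 1) {a : Matrix n n k} (ha : ‖a - 1‖ ≤ ‖(p : k)‖ ^ 2)
    (h0 : (a - 1) * (a - 1) = 0) : lg k p a = a - 1 := by
  have hpow : ∀ m : ℕ, a ^ m = 1 + (m : k) • (a - 1) := by
    intro m
    induction m with
    | zero => rw [pow_zero, Nat.cast_zero, zero_smul, add_zero]
    | succ m ih =>
      have h1 : a = 1 + (a - 1) := by abel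
      rw [pow_succ, ih]
      nth_rewrite 2 [h1]
      rw [add_mul, mul_add, mul_add, smul_mul_assoc, smul_mul_assoc, h0, smul_zero, mul_one,
        mul_one, one_mul, Nat.cast_succ, add_smul, one_smul, add_zero]
      abel
  refine tendsto_nhds_unique (tendsto_dq (k := k) hp0 hp ha) ?_
  have h1 : ∀ m, dq k p a m = a - 1 := by
    intro m
    unfold dq
    rw [hpow, add_sub_cancel_left, smul_smul]
    have h2 : ((p : k) ^ m)⁻¹ * ((p ^ m : ℕ) : k) = 1 := by
      rw [Nat.cast_pow, inv_mul_cancel₀ (pow_ne_zero _ hp0)]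
    rw [h2, one_smul]
  have h3 : dq k p a = fun _ => a - 1 := funext h1
  rw [h3]
  exact tendsto_const_nhds

variable [TopologicalSpace G] [IsTopologicalGroup G] [CompactSpace G] [TotallyDisconnectedSpace G]
  [Fintype κ] [DecidableEq κ]

/-- A continuous character of a compact group has values in the valuation ring. -/
theorem char_le (μ : G →* k) (hμ : Continuous μ) (g : G) : ‖μ g‖ ≤ 1 := by
  obtain ⟨C, hC⟩ := (isCompact_range hμ).isBounded.exists_norm_le
  by_contra h
  push Not at h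
  obtain ⟨n, hn⟩ := pow_unbounded_of_one_lt C h
  have h1 := hC (μ (g ^ n)) ⟨g ^ n, rfl⟩
  rw [map_pow, norm_pow] at h1
  linarith

/-- **Pseudo-reflections or transvections make the logarithms big.** -/
theorem big_coreT [CharZero k] [IsAlgClosed k] (ρ : ∀ a, G →* Matrix (Fin (D a)) (Fin (D a)) k)
    {p : ℕ} (hp0 : (p : k) ≠ 0) (hp : ‖(p : k)‖ < 1) (hρ : ∀ a, Continuous (ρ a)) (s : κ → G)
    (T : κ → Prop)
    (hr : ∀ a b, ¬ T a → ¬ T b → (ρ b (s a) - 1).rank ≤ 1)
    (hw : ∀ a, ¬ T a → (ρ a (s a)).det ^ 2 ≠ 1)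
    (h1 : ∀ a b, ¬ T a → ¬ T b → b ≠ a → (ρ b (s a)).det ≠ (ρ a (s a)).det)
    (h2 : ∀ a b, ¬ T a → ¬ T b → b ≠ a → (ρ b (s a)).det * (ρ a (s a)).det ≠ 1)
    (hT : ∀ a, T a → (ρ a (s a) - 1).rank ≤ 1 ∧ (ρ a (s a)).det = 1 ∧ ρ a (s a) ≠ 1 ∧
      ∀ b, b ≠ a → ρ b (s a) = 1)
    (nof : ∀ a, T a → ∀ (J J' : Matrix (Fin (D a)) (Fin (D a)) k) (μ : G →* k), J * J' = 1 →
      (∀ γ, ‖μ γ‖ ≤ 1) → (∀ γ, J' * (ρ a γ)ᵀ * J = μ γ • ρ a γ⁻¹) →
      J' * (ρ a (s a) - 1)ᵀ * J = -(ρ a (s a) - 1) → False)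
    (hadj : ∀ a, Algebra.adjoin k (Set.range fun γ => ρ a γ * ρ a (s a) * ρ a γ⁻¹) = ⊤)
    (hns : ∀ a, ¬ T a → ∀ H : Subgroup G, H.Normal → IsOpen (H : Set G) →
      ∃ h ∈ H, ∀ c : k, ρ a h ≠ c • 1) : Big p ρ := by
  classical
  intro H hH z hz
  obtain ⟨N, hn, hNo, hNH, hNs⟩ := exists_small ρ (1 : G →* k) hp0 hρ
    (by exact continuous_const) H hH
  -- vectors
  have hex : ∀ a b, ∃ v f : Fin (D b) → k, (¬ T a → ¬ T b → ρ b (s a) - 1 = vecMulVec v f) ∧
      (T a → b = a → ρ b (s a) - 1 = vecMulVec v f) := by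
    intro a b
    by_cases h : (ρ b (s a) - 1).rank ≤ 1
    · obtain ⟨v, f, h3⟩ := exists_vecMulVec _ h
      exact ⟨v, f, fun _ _ => h3, fun _ _ => h3⟩
    · refine ⟨0, 0, fun h3 h4 => absurd (hr a b h3 h4) h, fun h3 h4 => ?_⟩
      subst h4
      exact absurd (hT _ h3).1 h
  choose u φ huφ huφT using hex
  have hs : ∀ a b, ¬ T a → ¬ T b → ρ b (s a) = 1 + vecMulVec (u a b) (φ a b) := by
    intro a b h3 h4
    rw [← huφ a b h3 h4, add_sub_cancel]
  have hsT : ∀ a, T a → ρ a (s a) = 1 + vecMulVec (u a a) (φ a a) := by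
    intro a h3
    rw [← huφT a a h3 rfl, add_sub_cancel]
  have hsa : ∀ a, ρ a (s a) = 1 + vecMulVec (u a a) (φ a a) := by
    intro a
    by_cases h : T a
    · exact hsT a h
    · exact hs a a h h
  have hdet : ∀ a b, ¬ T a → ¬ T b → (ρ b (s a)).det = 1 + φ a b ⬝ᵥ u a b := by
    intro a b h3 h4
    rw [hs a b h3 h4, det_one_add_vecMulVec]
  -- endomorphisms
  let e : ∀ a, Matrix (Fin (D a)) (Fin (D a)) k ≃ₐ[k] Module.End k (Fin (D a) → k) :=
    fun a => Matrix.toLinAlgEquiv'
  have he : ∀ a X w, e a X w = X.mulVec w := fun a X w => rfl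
  let R : ∀ a, G →* Module.End k (Fin (D a) → k) := fun a =>
    (e a : Matrix (Fin (D a)) (Fin (D a)) k →* Module.End k (Fin (D a) → k)).comp (ρ a)
  have hR : ∀ a g, R a g = e a (ρ a g) := fun a g => rfl
  let L0 : Submodule k (∀ a, Matrix (Fin (D a)) (Fin (D a)) k) :=
    (LS ρ (1 : G →* k) p N).map (LinearMap.fst k _ k)
  let E : (∀ a, Module.End k (Fin (D a) → k)) →ₗ[k] (∀ a, Matrix (Fin (D a)) (Fin (D a)) k) :=
    LinearMap.pi fun a => (e a).symm.toLinearMap.comp (LinearMap.proj a)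
  have hE : ∀ x a, E x a = (e a).symm (x a) := fun x a => rfl
  let L : Submodule k (∀ a, Module.End k (Fin (D a) → k)) := L0.comap E
  have memL : ∀ x, x ∈ L ↔ (fun a => (e a).symm (x a)) ∈ L0 := fun x => Iff.rfl
  have memL0 : ∀ y ∈ L0, ∃ ξ : k, (y, ξ) ∈ LS ρ (1 : G →* k) p N := by
    rintro y ⟨w, hw', rfl⟩
    exact ⟨w.2, hw'⟩
  have hL0 : ∀ y ξ, (y, ξ) ∈ LS ρ (1 : G →* k) p N → y ∈ L0 := fun y ξ h => ⟨(y, ξ), h, rfl⟩
  have hbrL : ∀ x ∈ L, ∀ y ∈ L, x * y - y * x ∈ L := by
    intro x hx y hy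
    rw [memL] at hx hy ⊢
    obtain ⟨ξ, hx'⟩ := memL0 _ hx
    obtain ⟨η, hy'⟩ := memL0 _ hy
    have h3 := hL0 _ _ (LS_bracket ρ (1 : G →* k) hp0 hp N hn hNs hx' hy')
    have h4 : (fun a => (e a).symm ((x * y - y * x) a)) = fun a =>
        (e a).symm (x a) * (e a).symm (y a) - (e a).symm (y a) * (e a).symm (x a) := by
      funext a
      show (e a).symm (x a * y a - y a * x a) = _
      rw [map_sub, map_mul, map_mul]
    rw [h4]
    exact h3
  have hconjL : ∀ g, ∀ x ∈ L, (fun a => R a g * x a * R a g⁻¹) ∈ L := by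
    intro g x hx
    rw [memL] at hx ⊢
    obtain ⟨ξ, hx'⟩ := memL0 _ hx
    have h3 := hL0 _ _ (LS_conj ρ (1 : G →* k) hp0 hp N hn hNs g hx')
    have h4 : (fun a => (e a).symm (R a g * x a * R a g⁻¹)) = fun a =>
        ρ a g * (e a).symm (x a) * ρ a g⁻¹ := by
      funext a
      rw [map_mul, map_mul, hR, hR, AlgEquiv.symm_apply_apply, AlgEquiv.symm_apply_apply]
    rw [h4]
    exact h3
  have hirr : ∀ a, ∀ W : Submodule k (Fin (D a) → k),
      (∀ g, ∀ w ∈ W, R a (g * s a * g⁻¹) w ∈ W) → W = ⊥ ∨ W = ⊤ := by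
    intro a W hW
    by_cases h0 : W = ⊥
    · exact Or.inl h0
    right
    let St : Subalgebra k (Matrix (Fin (D a)) (Fin (D a)) k) :=
      { carrier := {X | ∀ w ∈ W, X.mulVec w ∈ W}
        mul_mem' := by
          intro X Y hX hY w hw
          rw [← Matrix.mulVec_mulVec]
          exact hX _ (hY w hw)
        add_mem' := by
          intro X Y hX hY w hw
          rw [Matrix.add_mulVec]
          exact W.add_mem (hX w hw) (hY w hw)
        algebraMap_mem' := by
          intro r w hw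
          rw [Algebra.algebraMap_eq_smul_one, Matrix.smul_mulVec, Matrix.one_mulVec]
          exact W.smul_mem r hw }
    have h3 : St = ⊤ := by
      rw [eq_top_iff, ← hadj a]
      apply Algebra.adjoin_le
      rintro X ⟨γ, rfl⟩ w hw
      have h4 := hW γ w hw
      rw [hR, he, map_mul, map_mul] at h4
      exact h4
    obtain ⟨w, hw, hw0⟩ := (Submodule.ne_bot_iff W).mp h0
    obtain ⟨i, hi⟩ : ∃ i, w i ≠ 0 := by
      by_contra hne
      push Not at hne
      exact hw0 (funext hne)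
    rw [eq_top_iff]
    intro y _
    have h4 : vecMulVec y (Pi.single i (w i)⁻¹) ∈ St := by rw [h3]; trivial
    have h5 := h4 w hw
    have h6 : (vecMulVec y (Pi.single i (w i)⁻¹)).mulVec w = y := by
      rw [Matrix.vecMulVec_mulVec]
      ext j
      simp [hi]
    rwa [h6] at h5
  -- the transvections
  have hTL : ∀ a, T a → ∀ z : Module.End k (Fin (D a) → k),
      LinearMap.trace k (Fin (D a) → k) z = 0 → Pi.single a z ∈ L := by
    intro a ha
    obtain ⟨hT1, hT2, hT3, hT4⟩ := hT a ha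
    have hX : ρ a (s a) - 1 = vecMulVec (u a a) (φ a a) := huφT a a ha rfl
    have hu0 : u a a ≠ 0 := by
      intro h
      apply hT3
      rw [hsa a, h, zero_vecMulVec, add_zero]
    have hφ0 : φ a a ≠ 0 := by
      intro h
      apply hT3
      rw [hsa a, h, vecMulVec_zero, add_zero]
    have hφu : φ a a ⬝ᵥ u a a = 0 := by
      rw [hsa a, det_one_add_vecMulVec] at hT2
      exact add_eq_left.1 hT2
    have hXX : vecMulVec (u a a) (φ a a) * vecMulVec (u a a) (φ a a) = 0 := by
      rw [Matrix.vecMulVec_mul_vecMulVec, hφu, zero_smul, vecMulVec_zero]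
    have happ : ∀ w, ((dotProductBilin k k (φ a a)).smulRight (u a a) :
        Module.End k (Fin (D a) → k)) w = (φ a a ⬝ᵥ w) • u a a := fun w => rfl
    have hXe : e a (vecMulVec (u a a) (φ a a)) = (dotProductBilin k k (φ a a)).smulRight (u a a) := by
      ext w i
      rw [LinearMap.comp_apply, LinearMap.comp_apply, he, Matrix.vecMulVec_mulVec, happ]
      simp [mul_comm]
    refine TD.slTrans R a (v := u a a) (f := dotProductBilin k k (φ a a)) hu0 ?_ hφu ?_ ?_ L hbrL
      hconjL ?_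
    · intro h
      apply hφ0
      ext i
      have h3 := LinearMap.congr_fun h (Pi.single i 1)
      have h4 : φ a a ⬝ᵥ Pi.single i 1 = 0 := h3
      rwa [dotProduct_single, mul_one] at h4
    · intro W hW
      refine hirr a W ?_
      intro g w hw
      have h3 : R a (g * s a * g⁻¹) w = w + (dotProductBilin k k (φ a a)) (R a g⁻¹ w) • R a g (u a a) := by
        have h4 : R a (s a) = 1 + (dotProductBilin k k (φ a a)).smulRight (u a a) := by
          rw [hR, hsa a, map_add, map_one, hXe]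
        rw [map_mul, map_mul, Module.End.mul_apply, Module.End.mul_apply, h4, LinearMap.add_apply,
          Module.End.one_apply, map_add, TD.app_inv, LinearMap.smulRight_apply, map_smul]
      rw [h3]
      exact W.add_mem hw (hW g w hw)
    · -- no form
      intro J μ hJ1 hJ2 hJ3
      obtain ⟨B, hB⟩ : ∃ B : Matrix (Fin (D a)) (Fin (D a)) k,
          B = LinearMap.toMatrix₂' k J.toLinearMap := ⟨_, rfl⟩
      have hBapp : ∀ x y, J x y = x ⬝ᵥ B.mulVec y := by
        intro x y
        have h3 : J.toLinearMap = Matrix.toLinearMap₂' k B := by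
          rw [hB, Matrix.toLinearMap₂'_toMatrix']
        have h4 : J x y = J.toLinearMap x y := rfl
        rw [h4, h3, Matrix.toLinearMap₂'_apply']
      have hBu : IsUnit B := by
        rw [← Matrix.vecMul_injective_iff_isUnit]
        intro x y hxy
        apply J.injective
        ext i
        have h3 : ∀ w : Fin (D a) → k, J w (Pi.single i 1) = (B.vecMul w) i := by
          intro w
          rw [hBapp, Matrix.dotProduct_mulVec, dotProduct_single, mul_one]
        rw [LinearMap.comp_apply, LinearMap.comp_apply]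
        show J x (Pi.single i 1) = J y (Pi.single i 1)
        rw [h3, h3]
        exact congrFun hxy i
      obtain ⟨B', hB1, hB2⟩ : ∃ B', B * B' = 1 ∧ B' * B = 1 :=
        ⟨B⁻¹, Matrix.mul_nonsing_inv _ ((Matrix.isUnit_iff_isUnit_det _).1 hBu),
          Matrix.nonsing_inv_mul _ ((Matrix.isUnit_iff_isUnit_det _).1 hBu)⟩
      -- identities of matrices from identities of forms
      have hform : ∀ X Y : Matrix (Fin (D a)) (Fin (D a)) k,
          (∀ x y, x ⬝ᵥ X.mulVec y = x ⬝ᵥ Y.mulVec y) → X = Y := by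
        intro X Y h
        ext i j
        have h3 := h (Pi.single i 1) (Pi.single j 1)
        simpa using h3
      have hg : ∀ γ, (ρ a γ)ᵀ * B * ρ a γ = μ γ • B := by
        intro γ
        apply hform
        intro x y
        have h3 := hJ3 γ x y
        rw [hR, he, he, hBapp, hBapp] at h3
        rw [Matrix.smul_mulVec, dotProduct_smul, smul_eq_mul, ← h3, ← Matrix.mulVec_mulVec,
          ← Matrix.mulVec_mulVec, Matrix.dotProduct_mulVec x, Matrix.vecMul_transpose]
      have hinv' : ∀ γ, ρ a γ * ρ a γ⁻¹ = 1 := fun γ => by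
        rw [← map_mul, mul_inv_cancel, map_one]
      refine nof a ha B B' μ hB1 ?_ ?_ ?_
      · -- bounded
        obtain ⟨i, hi⟩ := Function.ne_iff.1 hu0
        obtain ⟨i', j', hij⟩ : ∃ i j, B i j ≠ 0 := by
          by_contra hne
          push Not at hne
          have h3 : B = 0 := Matrix.ext hne
          rw [h3, zero_mul] at hB1
          have h4 := congrFun (congrFun hB1 i) i
          rw [Matrix.zero_apply, Matrix.one_apply_eq] at h4
          exact zero_ne_one h4
        refine char_le μ ?_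
        have h3 : (μ : G → k) = fun γ => ((ρ a γ)ᵀ * B * ρ a γ) i' j' * (B i' j')⁻¹ := by
          funext γ
          rw [hg, Matrix.smul_apply, smul_eq_mul, mul_assoc, mul_inv_cancel₀ hij, mul_one]
        rw [h3]
        have h4 : Continuous fun γ => (ρ a γ)ᵀ * B * ρ a γ :=
          ((hρ a).matrix_transpose.mul continuous_const).mul (hρ a)
        exact ((continuous_apply j').comp ((continuous_apply i').comp h4)).mul continuous_const
      · intro γ
        have h3 : (ρ a γ)ᵀ * B = μ γ • (B * ρ a γ⁻¹) := by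
          have h4 := congrArg (· * ρ a γ⁻¹) (hg γ)
          simp only [mul_assoc, hinv', mul_one, smul_mul_assoc] at h4
          exact h4
        rw [mul_assoc, h3, mul_smul_comm, ← mul_assoc, hB2, one_mul]
      · have h3 : (ρ a (s a) - 1)ᵀ * B = - (B * (ρ a (s a) - 1)) := by
          apply hform
          intro x y
          have h4 := hJ2 x y
          have h5 : ∀ x : Fin (D a) → k, (dotProductBilin k k (φ a a)) x • u a a =
              (ρ a (s a) - 1).mulVec x := by
            intro x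
            rw [hX, Matrix.vecMulVec_mulVec]
            ext i
            show (φ a a ⬝ᵥ x) * u a a i = _
            simp [mul_comm]
          rw [h5, h5, hBapp, hBapp] at h4
          rw [Matrix.neg_mulVec, dotProduct_neg, ← Matrix.mulVec_mulVec, ← Matrix.mulVec_mulVec,
            ← h4, Matrix.dotProduct_mulVec x, Matrix.vecMul_transpose]
        rw [mul_assoc, h3, mul_neg, ← mul_assoc, hB2, one_mul]
    · -- the logarithm
      have hfi : N.FiniteIndex :=
        haveI := N.quotient_finite_of_isOpen hNo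
        Subgroup.finiteIndex_of_finite_quotient
      obtain ⟨m, hm⟩ : ∃ m, m = N.index := ⟨_, rfl⟩
      have hm0 : m ≠ 0 := by rw [hm]; exact hfi.index_ne_zero
      have hmN : s a ^ m ∈ N := by rw [hm]; exact N.pow_index_mem (s a)
      have hmk : (m : k) ≠ 0 := Nat.cast_ne_zero.2 hm0
      have hpow : ∀ j : ℕ, ρ a (s a ^ j) = 1 + (j : k) • vecMulVec (u a a) (φ a a) := by
        intro j
        induction j with
        | zero => rw [pow_zero, map_one, Nat.cast_zero, zero_smul, add_zero]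
        | succ j ih =>
          rw [pow_succ, map_mul, ih, hsa a, add_mul, mul_add, mul_add, smul_mul_assoc,
            smul_mul_assoc, hXX, smul_zero, mul_one, mul_one, one_mul, Nat.cast_succ, add_smul,
            one_smul, add_zero]
          abel
      have hlg : lgs ρ (1 : G →* k) p (s a ^ m) =
          ((Pi.single a ((m : k) • vecMulVec (u a a) (φ a a)), (0 : k)) : PA k D) := by
        unfold lgs
        have h3 : (fun b => lg k p (ρ b (s a ^ m))) =
            Pi.single a ((m : k) • vecMulVec (u a a) (φ a a)) := by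
          funext b
          by_cases hb : b = a
          · subst hb
            rw [Pi.single_eq_same]
            have h4 : ρ b (s b ^ m) - 1 = (m : k) • vecMulVec (u b b) (φ b b) := by
              rw [hpow, add_sub_cancel_left]
            rw [lg_unip hp0 hp ((hNs _ hmN).1 b) (by
              rw [h4, smul_mul_smul_comm, hXX, smul_zero]), h4]
          · rw [Pi.single_eq_of_ne hb, map_pow, hT4 b hb, one_pow, lg_one]
        have h5 : lg k p ((1 : G →* k) (s a ^ m)) = 0 := by
          rw [MonoidHom.one_apply, lg_one]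
        rw [h3, h5]
      have h3 := hL0 _ _ (by
        rw [← hlg]
        exact lgs_mem ρ (1 : G →* k) p N hmN (hNs _ hmN))
      rw [memL]
      have h4 : (fun b => (e b).symm ((Pi.single a ((dotProductBilin k k (φ a a)).smulRight (u a a)) :
          ∀ a, Module.End k (Fin (D a) → k)) b)) =
          (m : k)⁻¹ • (Pi.single a ((m : k) • vecMulVec (u a a) (φ a a)) :
            ∀ a, Matrix (Fin (D a)) (Fin (D a)) k) := by
        funext b
        by_cases hb : b = a
        · subst hb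
          rw [Pi.single_eq_same, Pi.smul_apply, Pi.single_eq_same, smul_smul,
            inv_mul_cancel₀ hmk, one_smul, ← hXe, AlgEquiv.symm_apply_apply]
        · rw [Pi.single_eq_of_ne hb, Pi.smul_apply, Pi.single_eq_of_ne hb, map_zero, smul_zero]
      rw [h4]
      exact L0.smul_mem _ h3
  have key : ∀ z' : ∀ a, Module.End k (Fin (D a) → k),
      (∀ a, LinearMap.trace k (Fin (D a) → k) (z' a) = 0) → z' ∈ L := by
    refine TD.slMix R T s (c := fun _ _ => 1) (d := fun a b => if ¬ T a ∧ ¬ T b then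
        (ρ b (s a)).det else 0)
      (φ := fun a b => dotProductBilin k k (φ a b)) (u := u)
      (fun _ _ => one_ne_zero) (fun a ha => ?_) (fun a b v ha hb => ?_) (fun a b ha hb => ?_)
      (fun a b ha hb hab => ?_) (fun a b ha hb hab => ?_) (fun a _ => hirr a) L hbrL hconjL ?_ hTL
    · rw [one_pow, if_pos ⟨ha, ha⟩]; exact (hw a ha).symm
    · rw [hR, he, hs a b ha hb, Matrix.add_mulVec, Matrix.one_mulVec, one_smul,
        Matrix.vecMulVec_mulVec]
      congr 1
      funext i
      show (MulOpposite.op (φ a b ⬝ᵥ v) • u a b) i = (φ a b ⬝ᵥ v) • u a b i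
      simp [mul_comm]
    · show φ a b ⬝ᵥ u a b = (if ¬ T a ∧ ¬ T b then (ρ b (s a)).det else 0) - 1
      rw [if_pos ⟨ha, hb⟩, hdet a b ha hb]; ring
    · rw [mul_one, mul_one, if_pos ⟨ha, hb⟩, if_pos ⟨ha, ha⟩]; exact h1 a b ha hb hab
    · rw [mul_one, if_pos ⟨ha, hb⟩, if_pos ⟨ha, ha⟩]; exact h2 a b ha hb hab
    · -- nonscalar
      intro a ha
      obtain ⟨h, hh, hne⟩ := hns a ha N hn hNo
      refine ⟨fun a => e a (lg k p (ρ a h)), ?_, ?_⟩
      · rw [memL]
        have h3 : (fun a => (e a).symm (e a (lg k p (ρ a h)))) = fun a => lg k p (ρ a h) := by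
          funext a
          rw [AlgEquiv.symm_apply_apply]
        rw [h3]
        exact hL0 _ _ (lgs_mem ρ (1 : G →* k) p N hh (hNs h hh))
      · rintro ⟨t, ht⟩
        have h3 : lg k p (ρ a h) = t • 1 := by
          apply (e a).injective
          rw [map_smul, map_one]
          exact ht
        obtain ⟨l, hl⟩ := scalar_of_lg hp0 hp ((hNs h hh).1 a) h3
        exact hne l hl
  -- conclusion
  have h3 := key (fun a => e a (z a)) (by
    intro a
    have h4 : e a (z a) = Matrix.toLin' (z a) := rfl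
    rw [h4, Matrix.trace_toLin'_eq]
    exact hz a)
  rw [memL] at h3
  have h4 : (fun a => (e a).symm (e a (z a))) = z := by
    funext a
    rw [AlgEquiv.symm_apply_apply]
  rw [h4] at h3
  obtain ⟨ξ, h5⟩ := memL0 _ h3
  have h6 : LS ρ (1 : G →* k) p N ≤ (Submodule.span k
      {x : ∀ a, Matrix (Fin (D a)) (Fin (D a)) k | ∃ h ∈ H,
        (∀ a, ‖ρ a h - 1‖ ≤ ‖(p : k)‖ ^ 2) ∧ x = fun a => lg k p (ρ a h)}).comap
        (LinearMap.fst k _ k) := by
    unfold LS
    rw [Submodule.span_le]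
    rintro x ⟨h, hh, hsm, rfl⟩
    exact Submodule.subset_span ⟨h, hNH hh, hsm.1, rfl⟩
  exact h6 h5

end

open NumberField
open Pool.Agent.TF
open Pool.Agent.TT (Qbar cyc)
open Pool.Agent.Heart (heartTr heartDim heartWt permMat pm)

/-- One norm form: no form is preserved up to scalars such that a map of rank one is skew. -/
theorem norm_noform {K : Type} [Field K] [NumberField K] [Algebra K Qbar] {N n b : ℕ}
    (S : SymForm K N n b) {p e : ℕ} [hp : Fact p.Prime] (hp2 : p ≠ 2) (he : e ≠ 0) {ζ : 𝓞 K}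
    (hζ : IsPrimitiveRoot ζ (p ^ e)) (hnb : p ^ e ∣ n + b) (hcase : b = 0 ∨ ¬ p ∣ n) (hN : 2 ≤ N)
    (hn : 4 * N + 2 ≤ n) (ip : K →+* ℂ_[p]) {d : ℕ}
    (hd : d = if b = 0 then (n - 2).choose N else (n - 1).choose N)
    (ρ : (Qbar ≃ₐ[K] Qbar) →* Matrix (Fin d) (Fin d) ℂ_[p])
    (hρ : Continuous ρ) (hT : HasTraces (fun σ => (ρ σ).trace) ip (p ^ e) ζ S.G)
    {J J' X : Matrix (Fin d) (Fin d) ℂ_[p]} (hJ : J * J' = 1)
    (μ : (Qbar ≃ₐ[K] Qbar) →* ℂ_[p]) (hμ : ∀ γ, ‖μ γ‖ ≤ 1)
    (hJρ : ∀ γ, J' * (ρ γ)ᵀ * J = μ γ • ρ γ⁻¹) (hr : X.rank ≤ 1) (hX0 : X ≠ 0)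
    (hX : J' * Xᵀ * J = - X) : False := by
  classical
  have hcase' : (b = 0 ∧ p ∣ n) ∨ (b ≠ 0 ∧ ¬ p ∣ n) := by
    have hpnb : p ∣ n + b := (dvd_pow_self p he).trans hnb
    by_cases hb : b = 0
    · left
      refine ⟨hb, ?_⟩
      rw [hb, add_zero] at hpnb
      exact hpnb
    · right
      exact ⟨hb, hcase.resolve_left hb⟩
  have hp1 := cm_norm_p p
  have hchar : CharP (IsLocalRing.ResidueField (VR ℂ_[p])) p := charP_residue hp.out hp1
  have hdim : d = heartDim (IsLocalRing.ResidueField (VR ℂ_[p])) n N := by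
    rw [hd]
    unfold heartDim
    rcases hcase' with ⟨hb, hpn⟩ | ⟨hb, hpn⟩
    · rw [if_pos hb, if_pos ((CharP.cast_eq_zero_iff _ p _).mpr hpn)]
    · rw [if_neg hb, if_neg (fun h => hpn ((CharP.cast_eq_zero_iff _ p _).mp h))]
  have h2 : (2 : IsLocalRing.ResidueField (VR ℂ_[p])) ≠ 0 := by
    intro h
    have h3 : ((2 : ℕ) : IsLocalRing.ResidueField (VR ℂ_[p])) = 0 := by exact_mod_cast h
    rw [CharP.cast_eq_zero_iff _ p] at h3
    exact hp2 ((Nat.prime_dvd_prime_iff_eq hp.out Nat.prime_two).mp h3)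
  have hinj := tg_inj S (by omega : 1 ≤ N) (by omega : N + 1 ≤ n)
  subst hdim
  obtain ⟨r, hr1, hr2⟩ := exists_hook h2 hN hn
  let π : (Qbar ≃ₐ[K] Qbar) →* Equiv.Perm (Fin n) :=
    { toFun := tgP S
      map_one' := tgP_one S hinj
      map_mul' := tgP_mul S hinj }
  have hπ : Function.Surjective π := tgP_surj S hinj
  have htr : ∀ γ, ∃ t : VR ℂ_[p], (t : ℂ_[p]) = (ρ γ).trace ∧
      IsLocalRing.residue (VR ℂ_[p]) t = ((r.comp π) γ).trace := by
    intro γ
    have h3 := tg_trace S hp.out hp2 he hζ hnb (by omega : 1 ≤ N) (by omega : N + 1 ≤ n) hp1 ip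
      (T := fun σ => (ρ σ).trace) (hρ.matrix_trace) hT γ
    obtain ⟨t, ht1, ht2⟩ := residue_int h3
    refine ⟨t, ht1, ?_⟩
    rw [ht2]
    have h4 : ((r.comp π) γ).trace =
        heartTr (IsLocalRing.ResidueField (VR ℂ_[p])) n N (tgP S γ) := hr2 (tgP S γ)
    rw [h4, nf_trace hcase']
  obtain ⟨v, f, hvf⟩ := exists_vecMulVec X hr
  have hv : v ≠ 0 := by
    rintro rfl
    apply hX0
    rw [hvf, zero_vecMulVec]
  have hf : f ≠ 0 := by
    rintro rfl
    apply hX0
    rw [hvf, vecMulVec_zero]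
  exact no_form (VR ℂ_[p]) ρ r hr1 π hπ htr hJ μ (fun γ => mem_VR.2 (hμ γ)) hJρ hv hf
    (by rw [← hvf]; exact hX)

/-- **Norm forms: the logarithms are big.** For each index (i) a pseudo-reflection as in norm_big
or (ii) a transvection that acts trivially on the other modules. -/
theorem norm_bigT {K : Type} [Field K] [NumberField K] [Algebra K Qbar] {p : ℕ}
    [hp : Fact p.Prime] (hp2 : p ≠ 2) {κ : Type} [Fintype κ] [DecidableEq κ] {N n b e : κ → ℕ}
    (S : ∀ a, SymForm K (N a) (n a) (b a)) (he : ∀ a, e a ≠ 0) {ζ : κ → 𝓞 K}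
    (hζ : ∀ a, IsPrimitiveRoot (ζ a) (p ^ e a)) (hnb : ∀ a, p ^ e a ∣ n a + b a)
    (hcase : ∀ a, b a = 0 ∨ ¬ p ∣ n a) (hN : ∀ a, 2 ≤ N a) (hn : ∀ a, 4 * N a + 2 ≤ n a)
    (ip : K →+* ℂ_[p]) {D : κ → ℕ}
    (hD : ∀ a, D a = if b a = 0 then (n a - 2).choose (N a) else (n a - 1).choose (N a))
    (ρ : ∀ a, (Qbar ≃ₐ[K] Qbar) →* Matrix (Fin (D a)) (Fin (D a)) ℂ_[p])
    (hρ : ∀ a, Continuous (ρ a))
    (hT : ∀ a, HasTraces (fun σ => (ρ a σ).trace) ip (p ^ e a) (ζ a) (S a).G)
    (s : κ → (Qbar ≃ₐ[K] Qbar)) (hsL : ∀ a i j, s a ((S a).L i j : Qbar) = (S a).L i j)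
    (T : κ → Prop)
    (hr : ∀ a c, ¬ T a → ¬ T c → (ρ c (s a) - 1).rank ≤ 1)
    (hw : ∀ a, ¬ T a → (ρ a (s a)).det ^ 2 ≠ 1)
    (h1 : ∀ a c, ¬ T a → ¬ T c → c ≠ a → (ρ c (s a)).det ≠ (ρ a (s a)).det)
    (h2 : ∀ a c, ¬ T a → ¬ T c → c ≠ a → (ρ c (s a)).det * (ρ a (s a)).det ≠ 1)
    (hTr : ∀ a, T a → (ρ a (s a) - 1).rank ≤ 1 ∧ (ρ a (s a)).det = 1 ∧ ρ a (s a) ≠ 1 ∧
      ∀ c, c ≠ a → ρ c (s a) = 1) : Big p ρ := by
  have hac : Algebra.IsAlgebraic K Qbar := by
    have : Algebra.IsAlgebraic ℚ Qbar := AlgebraicClosure.isAlgebraic ℚ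
    exact Algebra.IsAlgebraic.tower_top (K := ℚ) K
  have hgal : IsGalois K Qbar := by
    have : Algebra.IsSeparable K Qbar := inferInstance
    have : Normal K Qbar := by
      have : IsAlgClosed Qbar := inferInstance
      have : IsAlgClosure K Qbar := ⟨this, hac⟩
      exact IsAlgClosure.normal K Qbar
    exact {}
  have hp0 : (p : ℂ_[p]) ≠ 0 := by exact_mod_cast hp.out.ne_zero
  have hp1 := cm_norm_p p
  have hraa : ∀ a, (ρ a (s a) - 1).rank ≤ 1 := by
    intro a
    by_cases h : T a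
    · exact (hTr a h).1
    · exact hr a a h h
  have hne : ∀ a, ρ a (s a) ≠ 1 := by
    intro a
    by_cases h : T a
    · exact (hTr a h).2.2.1
    · intro h'
      apply hw a h
      rw [h', Matrix.det_one, one_pow]
  have hsingle := fun a => norm_single (S a) hp2 (he a) (hζ a) (hnb a) (hcase a) (hN a) (hn a) ip
    (hD a) (ρ a) (hρ a) (hT a) (s a) (hsL a) (hraa a) (hne a)
  refine big_coreT ρ hp0 hp1 hρ s T hr hw h1 h2 hTr ?_ (fun a => (hsingle a).1) ?_
  · intro a ha J J' μ hJ hμ hJρ hJX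
    exact norm_noform (S a) hp2 (he a) (hζ a) (hnb a) (hcase a) (hN a) (hn a) ip
      (hD a) (ρ a) (hρ a) (hT a) hJ μ hμ hJρ (hraa a) (sub_ne_zero.2 (hne a)) hJX
  · intro a _ H hH hHo
    have hfi : H.FiniteIndex :=
      haveI := H.quotient_finite_of_isOpen hHo
      Subgroup.finiteIndex_of_finite_quotient
    exact (hsingle a).2 H hH hfi

end Pool.Agent.NF
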